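import Mathlib

set_option autoImplicit false

/-! Few natural numbers up to `T` are composed of the prime factors of a number whose radical is at most
a power of `T`. -/

namespace Pool.Agent.Q21.SP

open Finset Nat

/-- `n ↦ n ^ (-δ)` -/
noncomputable def pw (δ : ℝ) : ℕ →* ℝ where
  toFun n := (n : ℝ) ^ (-δ)
  map_one' := by simp
  map_mul' a b := by
    push_cast
    exact Real.mul_rpow (Nat.cast_nonneg _) (Nat.cast_nonneg _)

lemma pw_apply (δ : ℝ) (n : ℕ) : pw δ n = (n : ℝ) ^ (-δ) := rfl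

/-- **Few numbers with prescribed prime factors.** -/
theorem few_support (A ε : ℝ) (hA : 0 ≤ A) (hε : 0 < ε) : ∃ C : ℝ, 0 < C ∧ ∀ T : ℕ, 1 ≤ T → ∀ s : Finset ℕ,
    (∀ p ∈ s, p.Prime) → ((∏ p ∈ s, p : ℕ) : ℝ) ≤ (T : ℝ) ^ A →
    (((Icc 1 T).filter (fun n => n.primeFactors ⊆ s)).card : ℝ) ≤ C * (T : ℝ) ^ ε := by
  obtain ⟨δ, hδ⟩ : ∃ δ, δ = ε / 2 := ⟨_, rfl⟩
  obtain ⟨δ', hδ'⟩ : ∃ δ', δ' = ε / (2 * (A + 1)) := ⟨_, rfl⟩
  have hδ0 : 0 < δ := by rw [hδ]; positivity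
  have hδ'0 : 0 < δ' := by rw [hδ']; positivity
  obtain ⟨K, hK⟩ : ∃ K : ℝ, K = (1 - (2 : ℝ) ^ (-δ))⁻¹ := ⟨_, rfl⟩
  have h2δ : (2 : ℝ) ^ (-δ) < 1 := Real.rpow_lt_one_of_one_lt_of_neg (by norm_num) (by linarith)
  have h2δ' : 0 < (2 : ℝ) ^ (-δ) := by positivity
  have hK1 : 1 ≤ K := by
    rw [hK]
    exact (one_le_inv₀ (by linarith)).2 (by linarith)
  -- the bound for one prime
  have hp1 : ∀ p : ℕ, 2 ≤ p → (1 - (p : ℝ) ^ (-δ))⁻¹ ≤ K ∧ 0 < 1 - (p : ℝ) ^ (-δ) := by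
    intro p hp
    have h1 : (p : ℝ) ^ (-δ) ≤ (2 : ℝ) ^ (-δ) :=
      Real.rpow_le_rpow_of_nonpos (by norm_num) (by exact_mod_cast hp) (by linarith)
    refine ⟨?_, by linarith⟩
    rw [hK]
    exact inv_anti₀ (by linarith) (by linarith)
  obtain ⟨P₀, hP₀⟩ : ∃ P₀ : ℕ, ∀ p : ℕ, P₀ ≤ p → K ≤ (p : ℝ) ^ δ' := by
    have h1 : ∀ᶠ p : ℕ in Filter.atTop, K ≤ (p : ℝ) ^ δ' :=
      ((tendsto_rpow_atTop hδ'0).comp tendsto_natCast_atTop_atTop).eventually_ge_atTop K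
    exact Filter.eventually_atTop.1 h1
  refine ⟨K ^ P₀, by positivity, fun T hT s hs hprod => ?_⟩
  have hT0 : (0 : ℝ) < T := by exact_mod_cast hT
  have hT1 : (1 : ℝ) ≤ T := by exact_mod_cast hT
  -- the product
  have hfac : ∏ p ∈ s, (1 - (p : ℝ) ^ (-δ))⁻¹ ≤ K ^ P₀ * (T : ℝ) ^ (ε / 2) := by
    have h1 : ∀ p ∈ s, (1 - (p : ℝ) ^ (-δ))⁻¹ ≤ (if p < P₀ then K else 1) * (p : ℝ) ^ δ' := by
      intro p hp
      have h2 := (hs p hp).two_le
      have h3 : (1 : ℝ) ≤ (p : ℝ) ^ δ' :=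
        Real.one_le_rpow (by exact_mod_cast (by omega : 1 ≤ p)) hδ'0.le
      split_ifs with h
      · refine (hp1 p h2).1.trans ?_
        nlinarith
      · rw [one_mul]
        exact (hp1 p h2).1.trans (hP₀ p (not_lt.1 h))
    refine (Finset.prod_le_prod (fun p hp => (inv_pos.2 (hp1 p (hs p hp).two_le).2).le) h1).trans ?_
    rw [Finset.prod_mul_distrib]
    refine mul_le_mul ?_ ?_ (Finset.prod_nonneg fun p _ => by positivity) (by positivity)
    · rw [Finset.prod_ite, Finset.prod_const, Finset.prod_const_one, mul_one]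
      refine pow_le_pow_right₀ hK1 ?_
      have h2 : s.filter (fun p => p < P₀) ⊆ range P₀ := by
        intro p hp
        rw [mem_filter] at hp
        exact mem_range.2 hp.2
      simpa using card_le_card h2
    · rw [Real.finset_prod_rpow s (fun p => (p : ℝ)) (fun p _ => Nat.cast_nonneg _)]
      have h2 : ∏ p ∈ s, (p : ℝ) = ((∏ p ∈ s, p : ℕ) : ℝ) := by push_cast; rfl
      rw [h2]
      refine (Real.rpow_le_rpow (Nat.cast_nonneg _) hprod hδ'0.le).trans ?_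
      rw [← Real.rpow_mul hT0.le]
      refine Real.rpow_le_rpow_of_exponent_le hT1 ?_
      rw [hδ', mul_div_assoc', div_le_div_iff₀ (by positivity) (by norm_num)]
      nlinarith
  -- Rankin
  have hE := EulerProduct.summable_and_hasSum_factoredNumbers_prod_filter_prime_geometric (f := pw δ)
    (by
      intro p hp
      rw [pw_apply, Real.norm_of_nonneg (by positivity)]
      have := (hp1 p hp.two_le).2
      linarith) s
  have hfilt : s.filter Nat.Prime = s := Finset.filter_true_of_mem hs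
  rw [hfilt] at hE
  obtain ⟨hE1, hE2⟩ := hE
  have hmem : ∀ n ∈ (Icc 1 T).filter (fun n => n.primeFactors ⊆ s), n ∈ Nat.factoredNumbers s := by
    intro n hn
    rw [mem_filter, mem_Icc] at hn
    rw [Nat.mem_factoredNumbers]
    refine ⟨by omega, fun p hp => hn.2 ?_⟩
    rw [← List.mem_toFinset] at hp
    exact hp
  have hsum1 : ∑ n ∈ (Icc 1 T).filter (fun n => n.primeFactors ⊆ s), (n : ℝ) ^ (-δ) ≤
      ∏ p ∈ s, (1 - (p : ℝ) ^ (-δ))⁻¹ := by
    have h1 : ∑ n ∈ (Icc 1 T).filter (fun n => n.primeFactors ⊆ s), (n : ℝ) ^ (-δ) =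
        ∑ n ∈ ((Icc 1 T).filter (fun n => n.primeFactors ⊆ s)).attach,
          pw δ ((⟨n.1, hmem n.1 n.2⟩ : Nat.factoredNumbers s) : ℕ) := by
      rw [← Finset.sum_attach]
      rfl
    rw [h1]
    have h2 : ∑ n ∈ ((Icc 1 T).filter (fun n => n.primeFactors ⊆ s)).attach,
          pw δ ((⟨n.1, hmem n.1 n.2⟩ : Nat.factoredNumbers s) : ℕ) =
        ∑ m ∈ ((Icc 1 T).filter (fun n => n.primeFactors ⊆ s)).attach.map
          ⟨fun n => (⟨n.1, hmem n.1 n.2⟩ : Nat.factoredNumbers s), fun a b hab => by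
            simp only [Subtype.mk.injEq] at hab
            exact Subtype.ext hab⟩, pw δ (m : ℕ) := by
      rw [Finset.sum_map]
      rfl
    rw [h2]
    refine sum_le_hasSum _ (fun m _ => ?_) hE2
    rw [pw_apply]
    positivity
  have hcount : (((Icc 1 T).filter (fun n => n.primeFactors ⊆ s)).card : ℝ) ≤
      (T : ℝ) ^ δ * ∑ n ∈ (Icc 1 T).filter (fun n => n.primeFactors ⊆ s), (n : ℝ) ^ (-δ) := by
    rw [Finset.mul_sum, ← nsmul_one, ← Finset.sum_const]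
    refine Finset.sum_le_sum fun n hn => ?_
    rw [mem_filter, mem_Icc] at hn
    have hn0 : (0 : ℝ) < n := by exact_mod_cast hn.1.1
    have h1 : (n : ℝ) ^ δ ≤ (T : ℝ) ^ δ := Real.rpow_le_rpow hn0.le (by exact_mod_cast hn.1.2) hδ0.le
    rw [Real.rpow_neg hn0.le, ← div_eq_mul_inv, le_div_iff₀ (by positivity), one_mul]
    exact h1
  calc (((Icc 1 T).filter (fun n => n.primeFactors ⊆ s)).card : ℝ)
      ≤ (T : ℝ) ^ δ * ∑ n ∈ (Icc 1 T).filter (fun n => n.primeFactors ⊆ s), (n : ℝ) ^ (-δ) := hcount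
    _ ≤ (T : ℝ) ^ δ * (K ^ P₀ * (T : ℝ) ^ (ε / 2)) :=
        mul_le_mul_of_nonneg_left (hsum1.trans hfac) (by positivity)
    _ = K ^ P₀ * ((T : ℝ) ^ (ε / 2) * (T : ℝ) ^ (ε / 2)) := by rw [hδ]; ring
    _ = K ^ P₀ * (T : ℝ) ^ ε := by rw [← Real.rpow_add hT0, add_halves]

end Pool.Agent.Q21.SP
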